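import Pool.Agent.TH6.LF.Bar
import Pool.Agent.V8H7.KD.Ker

set_option autoImplicit false
set_option linter.unusedSectionVars false

/-! Matrices over a real group ring which are dominated by their diagonal in the sense of quadratic
forms. -/

namespace Pool.Agent.V8H82.HP

open Matrix MonoidAlgebra TH57.Thr TH6.LF V8H7.KD

variable {G : Type} [Group G] {κ ι ρ : Type}

open Classical in
/-- The infinite matrix of the absolute values of the coefficients of `H`, without the coefficients
of `1` in the diagonal entries: the entry at `(i, g), (j, h)` is the absolute value of the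
coefficient of `g⁻¹h` in `H i j`. -/
noncomputable def others (H : Matrix κ κ (MonoidAlgebra ℝ G)) (u v : κ × G) : ℝ :=
  if u = v then 0 else |(H u.1 v.1).coeff (u.2⁻¹ * v.2)|

/-- The diagonal of `H` (the coefficients of `1` in the diagonal entries) dominates the matrix of
the absolute values of all other coefficients in the sense of quadratic forms (equality allowed). -/
def FormDominated (H : Matrix κ κ (MonoidAlgebra ℝ G)) : Prop :=
  ∀ (z : κ × G → ℝ) (L : Finset (κ × G)), (∀ u, 0 ≤ z u) →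
    ∑ u ∈ L, ∑ v ∈ L, z u * z v * others H u v ≤ ∑ u ∈ L, z u ^ 2 * (H u.1 u.1).coeff 1

theorem others_nonneg (H : Matrix κ κ (MonoidAlgebra ℝ G)) (u v : κ × G) : 0 ≤ others H u v := by
  unfold others
  split_ifs
  · exact le_rfl
  · exact abs_nonneg _

theorem FormDominated.diag {H : Matrix κ κ (MonoidAlgebra ℝ G)} (h : FormDominated H) (i : κ) :
    0 ≤ (H i i).coeff 1 := by
  classical
  have h1 := h (fun _ => 1) {(i, 1)} (fun _ => zero_le_one)
  simp only [Finset.sum_singleton] at h1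
  have h2 := others_nonneg H (i, (1 : G)) (i, 1)
  simp only [one_pow, one_mul] at h1
  linarith

variable [Fintype κ] [Fintype ι] [Fintype ρ]

/-- the inner product in coordinates -/
theorem ip_eq (w x : κ → MonoidAlgebra ℝ G) :
    ip w x = ∑ v ∈ vs x, (w v.1).coeff v.2 * (x v.1).coeff v.2 := by
  classical
  rw [ip_comm]
  unfold ip
  rw [MonoidAlgebra.coeff_sum, Finsupp.finsetSum_apply]
  have h2 : ∀ i, (x i * bar (w i)).coeff 1
      = ∑ h ∈ (x i).coeff.support, (w i).coeff h * (x i).coeff h := fun i => by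
    rw [MonoidAlgebra.coeff_mul_apply_left]
    refine Finset.sum_congr rfl fun g _ => ?_
    change (x i).coeff g * (bar (w i)).coeff (g⁻¹ * 1) = _
    rw [coeff_bar, mul_one, inv_inv, mul_comm]
  rw [Finset.sum_congr rfl fun i _ => h2 i, Finset.sum_sigma']
  refine Finset.sum_bij' (fun x _ => (x.1, x.2)) (fun u _ => ⟨u.1, u.2⟩) ?_ ?_ ?_ ?_ ?_
  · rintro ⟨i, h⟩ hx
    rw [Finset.mem_sigma] at hx
    rw [mem_vs]
    exact Finsupp.mem_support_iff.1 hx.2
  · rintro ⟨i, h⟩ hx
    rw [mem_vs] at hx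
    rw [Finset.mem_sigma]
    exact ⟨Finset.mem_univ _, Finsupp.mem_support_iff.2 hx⟩
  · rintro ⟨i, h⟩ _; rfl
  · rintro ⟨i, h⟩ _; rfl
  · rintro ⟨i, h⟩ _; rfl

/-- the form of a dominated matrix is nonnegative -/
theorem FormDominated.form_nonneg {H : Matrix κ κ (MonoidAlgebra ℝ G)} (h : FormDominated H)
    (x : κ → MonoidAlgebra ℝ G) : 0 ≤ ip (x ᵥ* H) x := by
  classical
  have h1 := h (fun u => |(x u.1).coeff u.2|) (vs x) (fun _ => abs_nonneg _)
  rw [ip_eq]
  have h2 : ∀ v ∈ vs x, ((x ᵥ* H) v.1).coeff v.2 * (x v.1).coeff v.2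
      ≥ |(x v.1).coeff v.2| ^ 2 * (H v.1 v.1).coeff 1
        - ∑ u ∈ vs x, |(x v.1).coeff v.2| * |(x u.1).coeff u.2| * others H u v := by
    intro v hv
    rw [coeff_vecMul, Finset.sum_mul, ← Finset.add_sum_erase _ _ hv,
      ← Finset.add_sum_erase _ _ hv]
    have e1 : ent H v v = (H v.1 v.1).coeff 1 := by unfold ent; rw [inv_mul_cancel]
    have e2 : others H v v = 0 := by unfold others; simp
    have e3 : (x v.1).coeff v.2 * ent H v v * (x v.1).coeff v.2
        = |(x v.1).coeff v.2| ^ 2 * (H v.1 v.1).coeff 1 := by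
      rw [e1, sq_abs]; ring
    rw [e3, e2, mul_zero, zero_add]
    have e4 : -∑ u ∈ (vs x).erase v, |(x v.1).coeff v.2| * |(x u.1).coeff u.2| * others H u v
        ≤ ∑ u ∈ (vs x).erase v, (x u.1).coeff u.2 * ent H u v * (x v.1).coeff v.2 := by
      rw [← Finset.sum_neg_distrib]
      refine Finset.sum_le_sum fun u hu => ?_
      have h3 : u ≠ v := Finset.ne_of_mem_erase hu
      have e5 : others H u v = |ent H u v| := by unfold others ent; rw [if_neg h3]
      rw [e5]
      have h4 := neg_abs_le ((x u.1).coeff u.2 * ent H u v * (x v.1).coeff v.2)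
      rw [abs_mul, abs_mul] at h4
      linarith
    linarith
  have h3 := Finset.sum_le_sum h2
  rw [Finset.sum_sub_distrib, Finset.sum_comm] at h3
  have h4 : ∑ y ∈ vs x, ∑ x_1 ∈ vs x, |(x x_1.1).coeff x_1.2| * |(x y.1).coeff y.2| * others H y x_1
      = ∑ u ∈ vs x, ∑ v ∈ vs x, |(x u.1).coeff u.2| * |(x v.1).coeff v.2| * others H u v := by
    refine Finset.sum_congr rfl fun u _ => Finset.sum_congr rfl fun v _ => ?_
    ring
  rw [h4] at h3
  linarith

/-- a vector on which the nonnegative form of a selfadjoint matrix vanishes is in the kernel -/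
theorem ker_of_form {H : Matrix κ κ (MonoidAlgebra ℝ G)} (hs : adj H = H)
    (h : ∀ x : κ → MonoidAlgebra ℝ G, 0 ≤ ip (x ᵥ* H) x) (y : κ → MonoidAlgebra ℝ G)
    (hy : ip (y ᵥ* H) y ≤ 0) : y ᵥ* H = 0 := by
  set w := y ᵥ* H with hw
  have h0 : ip w y = 0 := le_antisymm hy (h y)
  have hww : ip w w = normSq w := ip_self w
  have hmv : ∀ (a b : κ → MonoidAlgebra ℝ G), ip (a ᵥ* H) b = ip a (b ᵥ* H) := by
    intro a b
    rw [ip_vecMul, hs]
  have key : ∀ t : ℝ, 0 ≤ 2 * t * normSq w + t ^ 2 * ip (w ᵥ* H) w := by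
    intro t
    have h1 := h (y + t • w)
    have h2 : (y + t • w) ᵥ* H = w + t • (w ᵥ* H) := by
      rw [Matrix.add_vecMul, ← hw]
      congr 1
      funext j
      simp only [Matrix.vecMul, dotProduct, Pi.smul_apply, smul_mul_assoc, Finset.smul_sum]
    rw [h2, ip_add_left, ip_add_right, ip_add_right, ip_smul_left, ip_smul_left, ip_smul_right,
      ip_smul_right, h0, hww, hmv w y, ← hw, hww] at h1
    linarith
  have hn := normSq_nonneg w
  have h1 : normSq w = 0 := by
    by_contra hne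
    have hpos : 0 < normSq w := lt_of_le_of_ne hn (Ne.symm hne)
    set q := ip (w ᵥ* H) w with hq
    have hq0 : 0 ≤ q := h w
    have h2 := key (-(normSq w / (q + 1)))
    have h3 : 0 < q + 1 := by linarith
    have h4 : 2 * -(normSq w / (q + 1)) * normSq w + (-(normSq w / (q + 1))) ^ 2 * q
        = -(normSq w ^ 2 / (q + 1) ^ 2) * (q + 2) := by
      field_simp
      ring
    rw [h4] at h2
    have h5 : 0 < normSq w ^ 2 / (q + 1) ^ 2 := by positivity
    nlinarith
  funext i
  ext g
  rw [normSq_eq] at h1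
  have h2 := (Finset.sum_eq_zero_iff_of_nonneg (fun i _ => n1_nonneg (w i))).1 h1 i
    (Finset.mem_univ _)
  by_contra hne
  have h3 : (w i).coeff g ^ 2 ≤ n1 (w i) := by
    have := sum_sq_le (w i) {g}
    rw [Finset.sum_singleton] at this
    exact this
  rw [h2] at h3
  exact hne (pow_eq_zero_iff (two_ne_zero) |>.1 (le_antisymm h3 (sq_nonneg _)))

/-- **The kernel of `A` is in the kernel of the form.** -/
theorem ker_sub [DecidableEq κ] {A : Matrix κ ι (MonoidAlgebra ℝ G)}
    {C : Matrix ι κ (MonoidAlgebra ℝ G)}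
    {H : Matrix κ κ (MonoidAlgebra ℝ G)} {P : Matrix κ ρ (MonoidAlgebra ℝ G)}
    (hH : FormDominated H) (he : A * C + adj (A * C) = H + P * adj P)
    (y : κ → MonoidAlgebra ℝ G) (hy : y ᵥ* A = 0) : y ᵥ* H = 0 := by
  have e1 : H = A * C + adj (A * C) - P * adj P := by rw [he]; abel
  have hs : adj H = H := by
    rw [e1, adj_sub, adj_add, adj_adj, adj_mul P, adj_adj]
    abel
  refine ker_of_form hs hH.form_nonneg y ?_
  have h1 : y ᵥ* (A * C) = 0 := by rw [← Matrix.vecMul_vecMul, hy, Matrix.zero_vecMul]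
  have h2 : ip (y ᵥ* adj (A * C)) y = 0 := by
    rw [ip_vecMul, adj_adj, h1, ip_comm, ip_zero_left]
  have h3 : ip (y ᵥ* (P * adj P)) y = normSq (y ᵥ* P) := by
    rw [← Matrix.vecMul_vecMul, ip_vecMul, adj_adj, ip_self]
  have h4 : ip (y ᵥ* H) y = ip (y ᵥ* (A * C)) y + ip (y ᵥ* adj (A * C)) y
      - ip (y ᵥ* (P * adj P)) y := by
    rw [e1, Matrix.vecMul_sub, Matrix.vecMul_add, sub_eq_add_neg, ip_add_left, ip_add_left,
      ip_neg_left]
    ring
  rw [h4, h1, ip_zero_left, h2, h3]
  have := normSq_nonneg (y ᵥ* P)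
  linarith

end Pool.Agent.V8H82.HP
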