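import Pool.Agent.V8H82.HP.Sum

set_option autoImplicit false
set_option linter.unusedSectionVars false

/-! Matrices with a dominated Gram matrix are tame. -/

namespace Pool.Agent.V8H82.HP

open Matrix MonoidAlgebra TH57.FF TH57.Thr TH6.LF

variable {G : Type} [Group G]

/-- the diagonal matrix of real numbers -/
noncomputable def dg (G : Type) [Group G] {k : ℕ} (d : Fin k → ℝ) :
    Matrix (Fin k) (Fin k) (MonoidAlgebra ℝ G) := Matrix.diagonal fun j => single 1 (d j)

theorem dg_mul {k : ℕ} (d e : Fin k → ℝ) : dg G d * dg G e = dg G fun j => d j * e j := by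
  unfold dg
  rw [Matrix.diagonal_mul_diagonal]
  congr 1
  funext j
  rw [single_mul_single, mul_one]

theorem adj_dg {k : ℕ} (d : Fin k → ℝ) : adj (dg G d) = dg G d := by
  ext1 i j
  rw [adj_apply]
  unfold dg
  by_cases h : i = j
  · subst h
    rw [Matrix.diagonal_apply_eq, bar_single, inv_one]
  · rw [Matrix.diagonal_apply_ne _ h, Matrix.diagonal_apply_ne _ (Ne.symm h), bar_zero]

theorem vec_zero_of_normSq {κ : Type} [Fintype κ] (w : κ → MonoidAlgebra ℝ G)
    (h1 : normSq w = 0) : w = 0 := by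
  funext i
  ext g
  rw [normSq_eq] at h1
  have h2 := (Finset.sum_eq_zero_iff_of_nonneg (fun i _ => n1_nonneg (w i))).1 h1 i
    (Finset.mem_univ _)
  by_contra hne
  have h3 : (w i).coeff g ^ 2 ≤ n1 (w i) := by
    have := sum_sq_le (w i) {g}
    rw [Finset.sum_singleton] at this
    exact this
  rw [h2] at h3
  exact hne (pow_eq_zero_iff (two_ne_zero) |>.1 (le_antisymm h3 (sq_nonneg _)))

theorem realVec_eq_zero {κ : Type} (y : κ → MonoidAlgebra ℤ G) (h : realVec y = 0) : y = 0 := by
  funext i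
  ext g
  have h1 := coeff_realVec y i g
  rw [h] at h1
  have h2 : ((0 : κ → MonoidAlgebra ℝ G) i).coeff g = 0 := rfl
  rw [h2] at h1
  exact_mod_cast h1.symm

theorem tame_of_ker (htf : ∀ g : G, ∀ k : ℕ, 0 < k → g ^ k = 1 → g = 1) {m k p : ℕ}
    (A : Matrix (Fin m) (Fin k) (MonoidAlgebra ℤ G))
    (H : Matrix (Fin m) (Fin m) (MonoidAlgebra ℝ G))
    (C : Matrix (Fin k) (Fin m) (MonoidAlgebra ℝ G))
    (P : Matrix (Fin m) (Fin p) (MonoidAlgebra ℝ G)) (h1 : FormDominated H)
    (h2 : toReal A * C + adj (toReal A * C) = H + P * adj P)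
    (h3 : ∀ y : Fin m → MonoidAlgebra ℤ G, realVec y ᵥ* H = 0 → y ᵥ* A = 0) : Tame A := by
  obtain ⟨r, W, -, hW⟩ := exists_spans htf H (adj_selfadj h2) h1
  refine Tame.step A H C P W h1 h2 hW ?_
  have h4 : W * A = 0 := by
    funext a
    have h5 : (W * A) a = W a ᵥ* A := rfl
    rw [h5]
    refine h3 _ ((hW _).2 ⟨Pi.single a 1, ?_⟩)
    rw [Matrix.single_one_vecMul]
    rfl
  rw [h4]
  exact Tame.zero

/-- **A matrix with a dominated Gram matrix is tame.** -/
theorem tame_of_gram (htf : ∀ g : G, ∀ k : ℕ, 0 < k → g ^ k = 1 → g = 1) {m k : ℕ}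
    (A : Matrix (Fin m) (Fin k) (MonoidAlgebra ℤ G)) (d : Fin k → ℝ) (hd : ∀ j, 0 < d j)
    (h : FormDominated (toReal A * dg G d * adj (toReal A))) : Tame A := by
  let e : Fin k → ℝ := fun j => Real.sqrt (d j)
  have he : ∀ j, e j * e j = d j := fun j => Real.mul_self_sqrt (hd j).le
  have he0 : ∀ j, e j ≠ 0 := fun j => (Real.sqrt_pos.2 (hd j)).ne'
  let P : Matrix (Fin m) (Fin k) (MonoidAlgebra ℝ G) := toReal A * dg G e
  have hP : P * adj P = toReal A * dg G d * adj (toReal A) := by
    have e1 : adj P = dg G e * adj (toReal A) := by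
      rw [adj_mul, adj_dg]
    rw [e1, Matrix.mul_assoc (toReal A), ← Matrix.mul_assoc (dg G e), dg_mul]
    simp only [he]
    rw [Matrix.mul_assoc]
  refine tame_of_ker htf A _ (dg G d * adj (toReal A)) P h ?_ ?_
  · rw [hP, ← Matrix.mul_assoc]
    congr 1
    rw [adj_mul, adj_mul, adj_adj, adj_dg, Matrix.mul_assoc]
  · intro y hy
    have h1 : ip (realVec y ᵥ* (P * adj P)) (realVec y) = normSq (realVec y ᵥ* P) := by
      rw [← Matrix.vecMul_vecMul, ip_vecMul, adj_adj, ip_self]
    rw [hP, hy, ip_zero_left] at h1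
    have h2 := vec_zero_of_normSq _ h1.symm
    have h3 : realVec y ᵥ* toReal A = 0 := by
      have h4 : realVec y ᵥ* P ᵥ* dg G (fun j => (e j)⁻¹) = realVec y ᵥ* toReal A := by
        have h5 : P * dg G (fun j => (e j)⁻¹) = toReal A := by
          change toReal A * dg G e * _ = _
          rw [Matrix.mul_assoc, dg_mul]
          have h6 : (fun j => e j * (e j)⁻¹) = fun _ => (1 : ℝ) := by
            funext j
            exact mul_inv_cancel₀ (he0 j)
          rw [h6]
          have h7 : dg G (fun _ : Fin k => (1 : ℝ)) = 1 := by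
            change Matrix.diagonal (fun _ : Fin k => (1 : MonoidAlgebra ℝ G)) = 1
            exact Matrix.diagonal_one
          rw [h7, Matrix.mul_one]
        rw [Matrix.vecMul_vecMul, h5]
      rw [← h4, h2, Matrix.zero_vecMul]
    rw [realVec_vecMul] at h3
    exact realVec_eq_zero _ h3

end Pool.Agent.V8H82.HP
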