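import Pool.Agent.V8H82.HP.Form
import Pool.Agent.V8H7.KD.Str

set_option autoImplicit false
set_option linter.unusedSectionVars false

/-! The kernel of a form dominated matrix on the vectors over the integral group ring. -/

namespace Pool.Agent.V8H82.HP

open Matrix MonoidAlgebra TH57.Thr TH6.LF V8H7.KD

variable {G : Type} [Group G] {κ ι ρ : Type}

theorem others_symm {H : Matrix κ κ (MonoidAlgebra ℝ G)} (hs : adj H = H) (u v : κ × G) :
    others H u v = others H v u := by
  unfold others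
  by_cases h : u = v
  · rw [if_pos h, if_pos h.symm]
  · rw [if_neg h, if_neg (Ne.symm h)]
    have h1 : H v.1 u.1 = bar (H u.1 v.1) := by
      have := congrFun (congrFun hs v.1) u.1
      rw [adj_apply] at this
      exact this.symm
    rw [h1, coeff_bar, _root_.mul_inv_rev, inv_inv]

theorem isNorm_real : IsNorm fun x : ℝ => |x| where
  zero := abs_zero
  pos := fun _ hx => abs_pos.2 hx
  add := abs_add_le
  neg := abs_neg
  mul := fun x y => (abs_mul x y).le

theorem FormDominated.two {H : Matrix κ κ (MonoidAlgebra ℝ G)} (h : FormDominated H)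
    (hs : adj H = H) (z s : κ × G → ℝ) (K : Finset (κ × G)) :
    2 * ∑ u ∈ K, ∑ v ∈ K, z u * s v * others H u v
      ≤ ∑ u ∈ K, z u ^ 2 * (H u.1 u.1).coeff 1 + ∑ u ∈ K, s u ^ 2 * (H u.1 u.1).coeff 1 := by
  have hab : ∀ t : κ × G → ℝ, ∑ u ∈ K, ∑ v ∈ K, |t u| * |t v| * others H u v
      ≤ ∑ u ∈ K, t u ^ 2 * (H u.1 u.1).coeff 1 := by
    intro t
    have h1 := h (fun u => |t u|) K (fun _ => abs_nonneg _)
    simpa only [sq_abs] using h1
  have h1 := hab (fun u => z u + s u)
  have h2 := hab (fun u => z u - s u)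
  have h3 : ∑ u ∈ K, ∑ v ∈ K, ((z u + s u) * (z v + s v) - (z u - s u) * (z v - s v)) * others H u v
      ≤ ∑ u ∈ K, ∑ v ∈ K, |z u + s u| * |z v + s v| * others H u v
        + ∑ u ∈ K, ∑ v ∈ K, |z u - s u| * |z v - s v| * others H u v := by
    rw [← Finset.sum_add_distrib]
    refine Finset.sum_le_sum fun u _ => ?_
    rw [← Finset.sum_add_distrib]
    refine Finset.sum_le_sum fun v _ => ?_
    rw [← add_mul]
    refine mul_le_mul_of_nonneg_right ?_ (others_nonneg H u v)
    rw [← abs_mul, ← abs_mul]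
    have e1 := le_abs_self ((z u + s u) * (z v + s v))
    have e2 := neg_abs_le ((z u - s u) * (z v - s v))
    linarith
  have h4 : ∑ u ∈ K, ∑ v ∈ K, s u * z v * others H u v = ∑ u ∈ K, ∑ v ∈ K, z u * s v * others H u v := by
    rw [Finset.sum_comm]
    refine Finset.sum_congr rfl fun u _ => Finset.sum_congr rfl fun v _ => ?_
    rw [others_symm hs v u]
    ring
  have h5 : ∑ u ∈ K, ∑ v ∈ K, ((z u + s u) * (z v + s v) - (z u - s u) * (z v - s v)) * others H u v
      = 4 * ∑ u ∈ K, ∑ v ∈ K, z u * s v * others H u v := by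
    have e1 : ∀ u v, ((z u + s u) * (z v + s v) - (z u - s u) * (z v - s v)) * others H u v
        = 2 * (z u * s v * others H u v) + 2 * (s u * z v * others H u v) := fun u v => by ring
    simp only [e1, Finset.sum_add_distrib, ← Finset.mul_sum]
    rw [h4]
    ring
  have h6 : ∑ u ∈ K, (z u + s u) ^ 2 * (H u.1 u.1).coeff 1
      + ∑ u ∈ K, (z u - s u) ^ 2 * (H u.1 u.1).coeff 1
      = 2 * (∑ u ∈ K, z u ^ 2 * (H u.1 u.1).coeff 1 + ∑ u ∈ K, s u ^ 2 * (H u.1 u.1).coeff 1) := by
    rw [← Finset.sum_add_distrib, ← Finset.sum_add_distrib, Finset.mul_sum]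
    refine Finset.sum_congr rfl fun u _ => ?_
    ring
  linarith

theorem off_eq [DecidableEq κ] [DecidableEq G] (H : Matrix κ κ (MonoidAlgebra ℝ G))
    (u v : κ × G) : off (fun x : ℝ => |x|) H u v = others H u v := by
  unfold off others ent
  by_cases h : u = v
  · simp only [if_pos h]
  · simp only [if_neg h]

theorem FormDominated.con {H : Matrix κ κ (MonoidAlgebra ℝ G)} (h : FormDominated H)
    (hs : adj H = H) : Con (others H) (fun u => (H u.1 u.1).coeff 1) := by
  classical
  have hd : ∀ u : κ × G, 0 ≤ (H u.1 u.1).coeff 1 := fun u => h.diag u.1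
  let μ : κ × G → ℝ := fun u => (H u.1 u.1).coeff 1
  let w : κ × G → ℝ := fun u => if μ u = 0 then 1 else (μ u)⁻¹
  have hw : ∀ u, 0 < w u := by
    intro u
    simp only [w]
    split_ifs with h0
    · exact one_pos
    · exact inv_pos.2 (lt_of_le_of_ne (hd u) (Ne.symm h0))
  have hwm : ∀ u, w u * μ u ≤ 1 := by
    intro u
    simp only [w]
    split_ifs with h0
    · rw [h0]; norm_num
    · rw [inv_mul_cancel₀ h0]
  have hwm2 : ∀ u, w u * μ u ^ 2 = μ u := by
    intro u
    simp only [w]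
    split_ifs with h0
    · rw [h0]; norm_num
    · field_simp
  refine ⟨2, w, two_pos, hw, fun z L M hz => ?_⟩
  simp only [Real.rpow_two]
  set t : κ × G → ℝ := fun v => ∑ u ∈ L, z u * others H u v with ht
  have e0 : ∑ u ∈ L, w u * (z u * μ u) ^ 2 = ∑ u ∈ L, z u ^ 2 * μ u := by
    refine Finset.sum_congr rfl fun u _ => ?_
    calc w u * (z u * μ u) ^ 2 = z u ^ 2 * (w u * μ u ^ 2) := by ring
      _ = _ := by rw [hwm2 u]
  change ∑ v ∈ M, w v * t v ^ 2 ≤ ∑ u ∈ L, w u * (z u * μ u) ^ 2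
  rw [e0]
  set K := L ∪ M with hK
  have h1 := h.two hs (fun u => if u ∈ L then z u else 0) (fun v => if v ∈ M then w v * t v else 0) K
  have h2 : ∑ u ∈ K, ∑ v ∈ K, (if u ∈ L then z u else 0) * (if v ∈ M then w v * t v else 0)
      * others H u v = ∑ v ∈ M, w v * t v ^ 2 := by
    rw [Finset.sum_comm]
    have h3 : ∀ v ∈ K, ∑ u ∈ K, (if u ∈ L then z u else 0) * (if v ∈ M then w v * t v else 0)
        * others H u v = if v ∈ M then w v * t v ^ 2 else 0 := by
      intro v _
      by_cases hv : v ∈ M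
      · simp only [if_pos hv]
        have h4 : ∑ u ∈ K, (if u ∈ L then z u else 0) * (w v * t v) * others H u v
            = (w v * t v) * ∑ u ∈ K, if u ∈ L then z u * others H u v else 0 := by
          rw [Finset.mul_sum (s := K)]
          refine Finset.sum_congr rfl fun u _ => ?_
          split_ifs <;> ring
        rw [h4, ← Finset.sum_filter]
        have h5 : K.filter (fun u => u ∈ L) = L := by
          ext u
          simp only [hK, Finset.mem_filter, Finset.mem_union]
          tauto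
        rw [h5]
        change w v * t v * t v = _
        ring
      · simp only [if_neg hv]
        simp
    rw [Finset.sum_congr rfl h3, ← Finset.sum_filter]
    have h5 : K.filter (fun u => u ∈ M) = M := by
      ext u
      simp only [hK, Finset.mem_filter, Finset.mem_union]
      tauto
    rw [h5]
  have h3 : ∑ u ∈ K, (if u ∈ L then z u else 0) ^ 2 * (H u.1 u.1).coeff 1
      = ∑ u ∈ L, z u ^ 2 * μ u := by
    have h4 : ∀ u ∈ K, (if u ∈ L then z u else 0) ^ 2 * (H u.1 u.1).coeff 1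
        = if u ∈ L then z u ^ 2 * μ u else 0 := by
      intro u _
      split_ifs
      · rfl
      · ring
    rw [Finset.sum_congr rfl h4, ← Finset.sum_filter]
    have h5 : K.filter (fun u => u ∈ L) = L := by
      ext u
      simp only [hK, Finset.mem_filter, Finset.mem_union]
      tauto
    rw [h5]
  have h4 : ∑ u ∈ K, (if u ∈ M then w u * t u else 0) ^ 2 * (H u.1 u.1).coeff 1
      ≤ ∑ v ∈ M, w v * t v ^ 2 := by
    have h5 : ∀ u ∈ K, (if u ∈ M then w u * t u else 0) ^ 2 * (H u.1 u.1).coeff 1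
        ≤ if u ∈ M then w u * t u ^ 2 else 0 := by
      intro u _
      split_ifs
      · have h6 : (w u * t u) ^ 2 * (H u.1 u.1).coeff 1 = (w u * t u ^ 2) * (w u * μ u) := by
          ring
        rw [h6]
        have h7 : 0 ≤ w u * t u ^ 2 := mul_nonneg (hw u).le (sq_nonneg _)
        calc w u * t u ^ 2 * (w u * μ u) ≤ w u * t u ^ 2 * 1 :=
              mul_le_mul_of_nonneg_left (hwm u) h7
          _ = _ := mul_one _
      · simp
    refine (Finset.sum_le_sum h5).trans (le_of_eq ?_)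
    rw [← Finset.sum_filter]
    have h5 : K.filter (fun u => u ∈ M) = M := by
      ext u
      simp only [hK, Finset.mem_filter, Finset.mem_union]
      tauto
    rw [h5]
  rw [h2, h3] at h1
  linarith

theorem FormDominated.dmd [DecidableEq κ] [DecidableEq G] {H : Matrix κ κ (MonoidAlgebra ℝ G)}
    (h : FormDominated H) (hs : adj H = H) :
    Dmd (fun x : ℝ => |x|) H (fun i => (H i i).coeff 1) := by
  refine ⟨h.diag, fun i y => ?_, ?_⟩
  · change |y| * (H i i).coeff 1 ≤ |y * (H i i).coeff 1|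
    rw [abs_mul, abs_of_nonneg (h.diag i)]
  · have h1 : off (fun x : ℝ => |x|) H = others H := by
      funext u v
      exact off_eq H u v
    have h2 := h.con hs
    rw [h1]
    obtain ⟨p, w, h3, h4, h5⟩ := h2
    exact ⟨p, w, h3, h4, h5⟩

/-- a vector over the integral group ring as a vector over the real group ring -/
noncomputable def realVec (y : κ → MonoidAlgebra ℤ G) : κ → MonoidAlgebra ℝ G :=
  fun i => MonoidAlgebra.mapRingHom G (Int.castRingHom ℝ) (y i)

theorem coeff_realVec (y : κ → MonoidAlgebra ℤ G) (i : κ) (g : G) :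
    (realVec y i).coeff g = ((y i).coeff g : ℝ) := by
  unfold realVec
  simp [MonoidAlgebra.coeff_mapRingHom]

variable [Fintype κ]

/-- integral kernels of real matrices -/
theorem int_ker [DecidableEq κ] (B : Matrix κ κ ℝ) :
    ∃ (r s : ℕ) (T : Matrix (Fin r) κ ℤ) (V : Matrix κ (Fin r) ℤ)
    (S : Matrix (Fin s) κ ℤ) (Q : Matrix κ (Fin s) ℤ), T * V = 1 ∧ S * Q = 1 ∧
      T * Q = 0 ∧ S * V = 0 ∧ V * T + Q * S = 1 ∧
      ∀ n : κ → ℤ, (fun i => (n i : ℝ)) ᵥ* B = 0 ↔ n ᵥ* Q = 0 := by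
  let f : (κ → ℤ) →ₗ[ℤ] (κ → ℝ) :=
    { toFun := fun n => (fun i => (n i : ℝ)) ᵥ* B
      map_add' := fun a b => by
        rw [← Matrix.add_vecMul]
        congr 1
        funext i
        simp
      map_smul' := fun a b => by
        funext j
        simp only [Matrix.vecMul, dotProduct, Pi.smul_apply, RingHom.id_apply, zsmul_eq_mul,
          smul_eq_mul, Int.cast_mul, Finset.mul_sum]
        refine Finset.sum_congr rfl fun i _ => ?_
        ring }
  have hf : ∀ n, f n = (fun i => (n i : ℝ)) ᵥ* B := fun n => rfl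
  obtain ⟨s, ⟨b⟩⟩ : ∃ s, Nonempty (Module.Basis (Fin s) ℤ (LinearMap.range f)) := by
    have h1 : Module.Finite ℤ (LinearMap.range f) := inferInstance
    have h2 : Module.Free ℤ (LinearMap.range f) := inferInstance
    exact ⟨_, ⟨(Module.Free.chooseBasis ℤ (LinearMap.range f)).reindex (Fintype.equivFin _)⟩⟩
  let φ : (κ → ℤ) →ₗ[ℤ] (Fin s → ℤ) := b.equivFun.toLinearMap ∘ₗ f.rangeRestrict
  have hφ0 : ∀ n, φ n = 0 ↔ f n = 0 := by
    intro n
    change b.equivFun (f.rangeRestrict n) = 0 ↔ _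
    rw [LinearEquiv.map_eq_zero_iff, Subtype.ext_iff]
    rfl
  have hφs : Function.Surjective φ := b.equivFun.surjective.comp f.surjective_rangeRestrict
  let Q : Matrix κ (Fin s) ℤ := (LinearMap.toMatrix' φ)ᵀ
  have hQ : ∀ n, n ᵥ* Q = φ n := by
    intro n
    rw [Matrix.vecMul_transpose, LinearMap.toMatrix'_mulVec]
  choose S0 hS0 using fun a : Fin s => hφs (Pi.single a 1)
  let S : Matrix (Fin s) κ ℤ := S0
  have hSQ : S * Q = 1 := by
    funext a
    have h1 : (S * Q) a = S a ᵥ* Q := rfl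
    rw [h1, hQ]
    change φ (S0 a) = _
    rw [hS0]
    funext c
    rw [Matrix.one_apply, Pi.single_apply]
    simp only [eq_comm]
  obtain ⟨r, ⟨t⟩⟩ := Submodule.nonempty_basis_of_pid (Pi.basisFun ℤ κ) (LinearMap.ker f)
  let T : Matrix (Fin r) κ ℤ := fun a => (t a : κ → ℤ)
  have hTsum : ∀ c : Fin r → ℤ, c ᵥ* T = ((∑ a, c a • t a : LinearMap.ker f) : κ → ℤ) := by
    intro c
    rw [Submodule.coe_sum]
    funext j
    simp [Matrix.vecMul, dotProduct, T]
  have hTinj : ∀ c : Fin r → ℤ, c ᵥ* T = 0 → c = 0 := by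
    intro c hc
    rw [hTsum] at hc
    have h1 : ∑ a, c a • t a = 0 := Subtype.ext hc
    exact funext fun a => Fintype.linearIndependent_iff.1 t.linearIndependent c h1 a
  have hTinj' : ∀ {ν : Type} (M : Matrix ν (Fin r) ℤ), M * T = 0 → M = 0 := by
    intro ν M hM
    funext a
    exact hTinj (M a) (congrFun hM a)
  have hTQ : T * Q = 0 := by
    funext a
    have h1 : (T * Q) a = T a ᵥ* Q := rfl
    rw [h1, hQ]
    exact (hφ0 _).2 (t a).2
  have hker : ∀ i, ((1 - Q * S : Matrix κ κ ℤ) i) ∈ LinearMap.ker f := by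
    intro i
    rw [LinearMap.mem_ker, ← hφ0, ← hQ]
    have h1 : (1 - Q * S : Matrix κ κ ℤ) i ᵥ* Q = ((1 - Q * S : Matrix κ κ ℤ) * Q) i := rfl
    rw [h1, Matrix.sub_mul, Matrix.one_mul, Matrix.mul_assoc, hSQ, Matrix.mul_one, sub_self]
    rfl
  let V : Matrix κ (Fin r) ℤ := fun i a => t.repr ⟨_, hker i⟩ a
  have hVT : V * T = 1 - Q * S := by
    funext i
    have h1 : (V * T) i = V i ᵥ* T := rfl
    rw [h1, hTsum]
    have h2 := t.sum_repr ⟨_, hker i⟩
    exact congrArg Subtype.val h2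
  refine ⟨r, s, T, V, S, Q, ?_, hSQ, hTQ, ?_, ?_, fun n => ?_⟩
  · have h1 : (T * V - 1) * T = 0 := by
      rw [Matrix.sub_mul, Matrix.one_mul, Matrix.mul_assoc, hVT, Matrix.mul_sub, Matrix.mul_one,
        ← Matrix.mul_assoc, hTQ, Matrix.zero_mul, sub_zero, sub_self]
    exact sub_eq_zero.1 (hTinj' _ h1)
  · apply hTinj'
    rw [Matrix.mul_assoc, hVT, Matrix.mul_sub, Matrix.mul_one, ← Matrix.mul_assoc, hSQ,
      Matrix.one_mul, sub_self]
  · rw [hVT, sub_add_cancel]
  · rw [hQ, hφ0, hf]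

/-- **The kernel of a form dominated matrix.** -/
theorem ker_struct [DecidableEq κ] (htf : ∀ g : G, ∀ k : ℕ, 0 < k → g ^ k = 1 → g = 1)
    {H : Matrix κ κ (MonoidAlgebra ℝ G)} (h : FormDominated H) (hs : adj H = H) :
    ∃ (r s : ℕ) (W : Matrix (Fin r) κ (MonoidAlgebra ℤ G)) (V : Matrix κ (Fin r) (MonoidAlgebra ℤ G))
    (S : Matrix (Fin s) κ (MonoidAlgebra ℤ G)) (Q : Matrix κ (Fin s) (MonoidAlgebra ℤ G)),
      W * V = 1 ∧ S * Q = 1 ∧ W * Q = 0 ∧ S * V = 0 ∧ V * W + Q * S = 1 ∧
      ∀ y : κ → MonoidAlgebra ℤ G, realVec y ᵥ* H = 0 ↔ y ᵥ* Q = 0 := by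
  classical
  obtain ⟨B, x, hB⟩ := exists_mat htf isNorm_real (h.dmd hs)
  obtain ⟨r, s, T, V, S, Q, h1, h2, h3, h4, h5, h6⟩ := int_ker B
  let X : Matrix κ κ (MonoidAlgebra ℤ G) := Matrix.diagonal fun i => single (x i) 1
  let X' : Matrix κ κ (MonoidAlgebra ℤ G) := Matrix.diagonal fun i => single (x i)⁻¹ 1
  have hX : X * X' = 1 := by
    rw [Matrix.diagonal_mul_diagonal, ← Matrix.diagonal_one]
    congr 1
    funext i
    rw [single_mul_single, mul_inv_cancel, mul_one, MonoidAlgebra.one_def]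
  have hX' : X' * X = 1 := by
    rw [Matrix.diagonal_mul_diagonal, ← Matrix.diagonal_one]
    congr 1
    funext i
    rw [single_mul_single, inv_mul_cancel, mul_one, MonoidAlgebra.one_def]
  have key : ∀ {α β : Type} (M : Matrix α κ ℤ) (N : Matrix κ β ℤ),
      (mp G M * X) * (X' * mp G N) = mp G (M * N) := by
    intro α β M N
    rw [Matrix.mul_assoc, ← Matrix.mul_assoc X, hX, Matrix.one_mul, mp_mul]
  refine ⟨r, s, mp G T * X, X' * mp G V, mp G S * X, X' * mp G Q, ?_, ?_, ?_, ?_, ?_, ?_⟩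
  · rw [key, h1, mp_one]
  · rw [key, h2, mp_one]
  · rw [key, h3, mp_eq, Matrix.map_zero _ (map_zero _)]
  · rw [key, h4, mp_eq, Matrix.map_zero _ (map_zero _)]
  · have e1 : X' * mp G V * (mp G T * X) + X' * mp G Q * (mp G S * X)
        = X' * (mp G (V * T) + mp G (Q * S)) * X := by
      rw [mp_mul, mp_mul, Matrix.mul_add, Matrix.add_mul]
      simp only [Matrix.mul_assoc]
    have e2 : mp G (V * T) + mp G (Q * S) = (1 : Matrix κ κ (MonoidAlgebra ℤ G)) := by
      rw [← mp_one (G := G) (R := ℤ), ← h5, mp_eq, mp_eq, mp_eq, Matrix.map_add _ (map_add _)]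
    rw [e1, e2, Matrix.mul_one, hX']
  · intro y
    rw [hB, ker_mp]
    have e1 : ∀ g, (fun i => (rmul x (realVec y) i).coeff g)
        = fun i => (((y i).coeff (g * x i) : ℤ) : ℝ) := by
      intro g
      funext i
      change (realVec y i * single (x i)⁻¹ 1).coeff g = _
      rw [MonoidAlgebra.coeff_mul_single_apply, mul_one, inv_inv, coeff_realVec]
    have e2 : y ᵥ* (X' * mp G Q) = rmul x y ᵥ* mp G Q := by
      rw [← Matrix.vecMul_vecMul]
      congr 1
      funext i
      rw [Matrix.vecMul_diagonal]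
      rfl
    rw [e2, ker_mp]
    have e3 : ∀ g, (fun i => (rmul x y i).coeff g) = fun i => (y i).coeff (g * x i) := by
      intro g
      funext i
      change (y i * single (x i)⁻¹ 1).coeff g = _
      rw [MonoidAlgebra.coeff_mul_single_apply, mul_one, inv_inv]
    simp only [e1, e3]
    exact forall_congr' fun g => h6 _

end Pool.Agent.V8H82.HP
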