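import Pool.Agent.V8H82.HP.Tame

set_option autoImplicit false
set_option linter.unusedSectionVars false

/-! With any factor larger than one the condition can always be satisfied. -/

namespace Pool.Agent.V8H82.HP

open Matrix MonoidAlgebra TH57.FF TH57.Thr TH57.TT2 TH6.LF Pool.Agent.R719.DD

variable {G : Type} [Group G]

theorem others_le {κ : Type} [DecidableEq κ] [DecidableEq G] (A : Matrix κ κ (MonoidAlgebra ℤ G))
    (u v : κ × G) : others (toReal A + adj (toReal A)) u v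
      ≤ V8H7.KD.off (fun x : ℤ => |(x : ℝ)|) A u v + V8H7.KD.off (fun x : ℤ => |(x : ℝ)|) A v u := by
  unfold others V8H7.KD.off V8H7.KD.ent
  by_cases h : u = v
  · simp [h]
  · rw [if_neg h, if_neg h, if_neg (Ne.symm h)]
    have h1 : ((toReal A + adj (toReal A)) u.1 v.1).coeff (u.2⁻¹ * v.2)
        = (((A u.1 v.1).coeff (u.2⁻¹ * v.2) : ℤ) : ℝ) + (((A v.1 u.1).coeff (v.2⁻¹ * u.2) : ℤ) : ℝ) := by
      change (toReal A u.1 v.1 + adj (toReal A) u.1 v.1).coeff (u.2⁻¹ * v.2) = _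
      rw [MonoidAlgebra.coeff_add, Finsupp.add_apply, adj_apply, coeff_bar, _root_.mul_inv_rev,
        inv_inv]
      unfold toReal
      simp [MonoidAlgebra.coeff_mapRingHom]
    rw [h1]
    exact abs_add_le _ _

theorem diag_eq {κ : Type} (A : Matrix κ κ (MonoidAlgebra ℤ G)) (i : κ) :
    ((toReal A + adj (toReal A)) i i).coeff 1 = 2 * (((A i i).coeff 1 : ℤ) : ℝ) := by
  change (toReal A i i + adj (toReal A) i i).coeff 1 = _
  rw [MonoidAlgebra.coeff_add, Finsupp.add_apply, adj_apply, coeff_bar, inv_one]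
  unfold toReal
  simp [MonoidAlgebra.coeff_mapRingHom]
  ring

theorem sharp (n : ℕ) {m k : ℕ} (A : Matrix (Fin m) (Fin k) (MonoidAlgebra ℤ G))
    (hA : Bd G (n + 1) A) (c : ℝ) (hc : 1 < c) :
    ∃ (q : ℕ) (A' : Matrix (Fin q) (Fin q) (MonoidAlgebra ℤ G)), Bd G (n + 1) A' ∧
      ∀ (z : Fin q × G → ℝ) (L : Finset (Fin q × G)), (∀ u, 0 ≤ z u) →
        ∑ u ∈ L, ∑ v ∈ L, z u * z v * others (toReal A' + adj (toReal A')) u v
          ≤ c * ∑ u ∈ L, z u ^ 2 * ((toReal A' + adj (toReal A')) u.1 u.1).coeff 1 := by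
  classical
  obtain ⟨q, A', h1, h2, h3⟩ := Pool.Agent.R719.DD.Bd_dom n A hA c hc
  have hc0 : 0 < c := by linarith
  obtain ⟨g1, g2, g3⟩ := V8H7.KD.dom_sums A' c hc0 h2 h3
  refine ⟨q, A', h1, fun z L hz => ?_⟩
  set N : Fin q × G → Fin q × G → ℝ := V8H7.KD.off (fun x : ℤ => |(x : ℝ)|) A' with hN
  have hN0 : ∀ u v, 0 ≤ N u v := fun u v => V8H7.KD.off_nonneg V8H7.KD.isNorm_abs A' u v
  set μ : Fin q × G → ℝ := fun u => (((A' u.1 u.1).coeff 1 : ℤ) : ℝ) with hμ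
  have e1 : ∑ u ∈ L, z u ^ 2 * ((toReal A' + adj (toReal A')) u.1 u.1).coeff 1
      = 2 * ∑ u ∈ L, z u ^ 2 * μ u := by
    rw [Finset.mul_sum]
    refine Finset.sum_congr rfl fun u _ => ?_
    rw [diag_eq]
    ring
  have e2 : ∑ u ∈ L, ∑ v ∈ L, z u * z v * others (toReal A' + adj (toReal A')) u v
      ≤ ∑ u ∈ L, ∑ v ∈ L, z u * z v * (N u v + N v u) :=
    Finset.sum_le_sum fun u _ => Finset.sum_le_sum fun v _ =>
      mul_le_mul_of_nonneg_left (others_le A' u v) (mul_nonneg (hz u) (hz v))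
  have e3 : ∑ u ∈ L, ∑ v ∈ L, z u * z v * (N u v + N v u)
      ≤ ∑ u ∈ L, ∑ v ∈ L, (z u ^ 2 + z v ^ 2) / 2 * (N u v + N v u) := by
    refine Finset.sum_le_sum fun u _ => Finset.sum_le_sum fun v _ =>
      mul_le_mul_of_nonneg_right ?_ (add_nonneg (hN0 u v) (hN0 v u))
    have := sq_nonneg (z u - z v)
    nlinarith
  have e4 : ∑ u ∈ L, ∑ v ∈ L, (z u ^ 2 + z v ^ 2) / 2 * (N u v + N v u)
      = ∑ u ∈ L, z u ^ 2 * ∑ v ∈ L, N u v + ∑ v ∈ L, z v ^ 2 * ∑ u ∈ L, N u v := by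
    have f1 : ∀ u v, (z u ^ 2 + z v ^ 2) / 2 * (N u v + N v u)
        = (z u ^ 2 * N u v / 2 + z v ^ 2 * N u v / 2) + (z u ^ 2 * N v u / 2 + z v ^ 2 * N v u / 2) :=
      fun u v => by ring
    simp only [f1, Finset.sum_add_distrib]
    have f2 : ∑ u ∈ L, ∑ v ∈ L, z v ^ 2 * N v u / 2 = ∑ u ∈ L, ∑ v ∈ L, z u ^ 2 * N u v / 2 :=
      Finset.sum_comm
    have f3 : ∑ u ∈ L, ∑ v ∈ L, z u ^ 2 * N v u / 2 = ∑ u ∈ L, ∑ v ∈ L, z v ^ 2 * N u v / 2 :=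
      Finset.sum_comm
    have f4 : ∑ u ∈ L, z u ^ 2 * ∑ v ∈ L, N u v = 2 * ∑ u ∈ L, ∑ v ∈ L, z u ^ 2 * N u v / 2 := by
      rw [Finset.mul_sum]
      refine Finset.sum_congr rfl fun u _ => ?_
      rw [Finset.mul_sum, Finset.mul_sum]
      refine Finset.sum_congr rfl fun v _ => ?_
      ring
    have f5 : ∑ v ∈ L, z v ^ 2 * ∑ u ∈ L, N u v = 2 * ∑ u ∈ L, ∑ v ∈ L, z v ^ 2 * N u v / 2 := by
      rw [Finset.sum_comm, Finset.mul_sum]
      refine Finset.sum_congr rfl fun u _ => ?_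
      rw [Finset.mul_sum, Finset.mul_sum]
      refine Finset.sum_congr rfl fun v _ => ?_
      ring
    rw [f2, f3, f4, f5]
    ring
  have e5 : ∑ u ∈ L, z u ^ 2 * ∑ v ∈ L, N u v ≤ ∑ u ∈ L, z u ^ 2 * (c * μ u) :=
    Finset.sum_le_sum fun u _ => mul_le_mul_of_nonneg_left (g2 u L) (sq_nonneg _)
  have e6 : ∑ v ∈ L, z v ^ 2 * ∑ u ∈ L, N u v ≤ ∑ v ∈ L, z v ^ 2 * (c * μ v) :=
    Finset.sum_le_sum fun v _ => mul_le_mul_of_nonneg_left (g3 v L) (sq_nonneg _)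
  have e7 : ∑ u ∈ L, z u ^ 2 * (c * μ u) = c * ∑ u ∈ L, z u ^ 2 * μ u := by
    rw [Finset.mul_sum]
    refine Finset.sum_congr rfl fun u _ => ?_
    ring
  rw [e1]
  rw [e4] at e3
  rw [e7] at e5 e6
  linarith

end Pool.Agent.V8H82.HP
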