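import Pool.Agent.V8H82.HP.Sharp

set_option autoImplicit false
set_option linter.unusedSectionVars false

/-! Weak diagonal dominance implies form dominance, and the kernel is a free direct summand. -/

namespace Pool.Agent.V8H82.HP

open Matrix MonoidAlgebra TH57.FF TH57.Thr TH6.LF

variable {G : Type} [Group G]

theorem formDominated_of_rows {κ : Type} (H : Matrix κ κ (MonoidAlgebra ℝ G)) (hs : adj H = H)
    (h : ∀ (u : κ × G) (M : Finset (κ × G)), ∑ v ∈ M, others H u v ≤ (H u.1 u.1).coeff 1) :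
    FormDominated H := by
  intro z L hz
  have e3 : ∑ u ∈ L, ∑ v ∈ L, z u * z v * others H u v
      ≤ ∑ u ∈ L, ∑ v ∈ L, (z u ^ 2 * others H u v / 2 + z v ^ 2 * others H u v / 2) := by
    refine Finset.sum_le_sum fun u _ => Finset.sum_le_sum fun v _ => ?_
    have h1 := sq_nonneg (z u - z v)
    have h2 := others_nonneg H u v
    have h3 : z u * z v ≤ (z u ^ 2 + z v ^ 2) / 2 := by nlinarith
    calc z u * z v * others H u v ≤ (z u ^ 2 + z v ^ 2) / 2 * others H u v :=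
          mul_le_mul_of_nonneg_right h3 h2
      _ = _ := by ring
  simp only [Finset.sum_add_distrib] at e3
  have e4 : ∑ u ∈ L, ∑ v ∈ L, z v ^ 2 * others H u v / 2
      = ∑ u ∈ L, ∑ v ∈ L, z u ^ 2 * others H u v / 2 := by
    rw [Finset.sum_comm]
    refine Finset.sum_congr rfl fun u _ => Finset.sum_congr rfl fun v _ => ?_
    rw [others_symm hs]
  have e5 : ∀ u ∈ L, ∑ v ∈ L, z u ^ 2 * others H u v / 2 ≤ z u ^ 2 * (H u.1 u.1).coeff 1 / 2 := by
    intro u _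
    have h1 : ∑ v ∈ L, z u ^ 2 * others H u v / 2 = z u ^ 2 / 2 * ∑ v ∈ L, others H u v := by
      rw [Finset.mul_sum]
      refine Finset.sum_congr rfl fun v _ => ?_
      ring
    rw [h1]
    have h2 := mul_le_mul_of_nonneg_left (h u L) (div_nonneg (sq_nonneg (z u)) zero_le_two)
    refine h2.trans (le_of_eq ?_)
    ring
  have e6 := Finset.sum_le_sum e5
  have e7 : ∑ u ∈ L, z u ^ 2 * (H u.1 u.1).coeff 1 / 2
      = (∑ u ∈ L, z u ^ 2 * (H u.1 u.1).coeff 1) / 2 := by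
    rw [Finset.sum_div]
  rw [e7] at e6
  rw [e4] at e3
  linarith

/-- The rows of `W` are the first rows of an invertible matrix. -/
def PartOfBasis {r m : ℕ} (W : Matrix (Fin r) (Fin m) (MonoidAlgebra ℤ G)) : Prop :=
  ∃ (s : ℕ) (V : Matrix (Fin m) (Fin r) (MonoidAlgebra ℤ G))
    (S : Matrix (Fin s) (Fin m) (MonoidAlgebra ℤ G)) (Q : Matrix (Fin m) (Fin s) (MonoidAlgebra ℤ G)),
    W * V = 1 ∧ S * Q = 1 ∧ W * Q = 0 ∧ S * V = 0 ∧ V * W + Q * S = 1

/-- The rows of `W` span the kernel of `H` on the row vectors over `ℤG`. -/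
def SpansKernel {r m : ℕ} (W : Matrix (Fin r) (Fin m) (MonoidAlgebra ℤ G))
    (H : Matrix (Fin m) (Fin m) (MonoidAlgebra ℝ G)) : Prop :=
  ∀ y : Fin m → MonoidAlgebra ℤ G,
    realVec y ᵥ* H = 0 ↔ ∃ z : Fin r → MonoidAlgebra ℤ G, z ᵥ* W = y

theorem exists_spans (htf : ∀ g : G, ∀ k : ℕ, 0 < k → g ^ k = 1 → g = 1) {m : ℕ}
    (H : Matrix (Fin m) (Fin m) (MonoidAlgebra ℝ G)) (hs : adj H = H) (h : FormDominated H) :
    ∃ (r : ℕ) (W : Matrix (Fin r) (Fin m) (MonoidAlgebra ℤ G)), PartOfBasis W ∧ SpansKernel W H := by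
  obtain ⟨r, s, W, V, S, Q, h1, h2, h3, h4, h5, h6⟩ := ker_struct htf h hs
  refine ⟨r, W, ⟨s, V, S, Q, h1, h2, h3, h4, h5⟩, fun y => ?_⟩
  rw [h6]
  constructor
  · intro hy
    refine ⟨y ᵥ* V, ?_⟩
    have e1 : y ᵥ* (V * W + Q * S) = y := by rw [h5, Matrix.vecMul_one]
    rw [Matrix.vecMul_add, ← Matrix.vecMul_vecMul, ← Matrix.vecMul_vecMul, hy, Matrix.zero_vecMul,
      add_zero] at e1
    exact e1
  · rintro ⟨z, rfl⟩
    rw [Matrix.vecMul_vecMul, h3, Matrix.vecMul_zero]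

end Pool.Agent.V8H82.HP
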