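import Pool.Agent.V8H82.HP.Lat
import Pool.Agent.V8H7.KD.FFt

set_option autoImplicit false
set_option linter.unusedSectionVars false

/-! Boundary matrices whose hermitian part is dominated by its diagonal. -/

namespace Pool.Agent.V8H82.HP

open Matrix MonoidAlgebra TH57.FF TH57.Thr TH57.TT2 TH6.LF Pool.Agent.R719.DD

/-- `A` is tame if it is zero, or if some matrix `U * A` is tame where `U` has a left inverse, or if
there are matrices `C`, `P` over the real group ring such that `A C + (A C)^* = H + P P^*` where `H`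
is dominated by its diagonal in the sense of quadratic forms, and `W * A` is tame, where the rows of
`W` span the kernel of `H` on the vectors over `ℤG`. The skew part of `A C` is arbitrary. -/
inductive Tame {G : Type} [Group G] {k : ℕ} :
    ∀ {m : ℕ}, Matrix (Fin m) (Fin k) (MonoidAlgebra ℤ G) → Prop
  | zero {m : ℕ} : Tame (0 : Matrix (Fin m) (Fin k) (MonoidAlgebra ℤ G))
  | rows {m l : ℕ} (A : Matrix (Fin m) (Fin k) (MonoidAlgebra ℤ G))
      (U : Matrix (Fin l) (Fin m) (MonoidAlgebra ℤ G))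
      (U' : Matrix (Fin m) (Fin l) (MonoidAlgebra ℤ G)) :
      U' * U = 1 → Tame (U * A) → Tame A
  | step {m r p : ℕ} (A : Matrix (Fin m) (Fin k) (MonoidAlgebra ℤ G))
      (H : Matrix (Fin m) (Fin m) (MonoidAlgebra ℝ G))
      (C : Matrix (Fin k) (Fin m) (MonoidAlgebra ℝ G))
      (P : Matrix (Fin m) (Fin p) (MonoidAlgebra ℝ G))
      (W : Matrix (Fin r) (Fin m) (MonoidAlgebra ℤ G)) :
      FormDominated H → toReal A * C + adj (toReal A * C) = H + P * adj P →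
      (∀ y : Fin m → MonoidAlgebra ℤ G,
        realVec y ᵥ* H = 0 ↔ ∃ z : Fin r → MonoidAlgebra ℤ G, z ᵥ* W = y) →
      Tame (W * A) → Tame A

variable {G : Type} [Group G]

theorem realVec_vecMul {κ ι : Type} [Fintype κ] (y : κ → MonoidAlgebra ℤ G)
    (A : Matrix κ ι (MonoidAlgebra ℤ G)) : realVec y ᵥ* toReal A = realVec (y ᵥ* A) := by
  funext j
  change ∑ i, MonoidAlgebra.mapRingHom G (Int.castRingHom ℝ) (y i)
    * MonoidAlgebra.mapRingHom G (Int.castRingHom ℝ) (A i j)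
    = MonoidAlgebra.mapRingHom G (Int.castRingHom ℝ) (∑ i, y i * A i j)
  rw [map_sum]
  refine Finset.sum_congr rfl fun i _ => ?_
  rw [map_mul]

theorem realVec_zero {κ : Type} : realVec (0 : κ → MonoidAlgebra ℤ G) = 0 := by
  funext j
  exact map_zero _

theorem RB_zero {m k : ℕ} : RB (0 : Matrix (Fin m) (Fin k) (MonoidAlgebra ℤ G)) := by
  refine ⟨Fin 0, inferInstance, 0, fun y _ => Subsingleton.elim _ _, fun y => ⟨0, ?_⟩,
    fun z => ⟨0, ?_⟩⟩
  · rw [Matrix.vecMul_zero, Matrix.vecMul_zero]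
  · rw [Matrix.vecMul_zero, Matrix.vecMul_zero]

theorem RB_step {m r s k : ℕ} (A : Matrix (Fin m) (Fin k) (MonoidAlgebra ℤ G))
    (W : Matrix (Fin r) (Fin m) (MonoidAlgebra ℤ G)) (Q : Matrix (Fin m) (Fin s) (MonoidAlgebra ℤ G))
    (S : Matrix (Fin s) (Fin m) (MonoidAlgebra ℤ G)) (hSQ : S * Q = 1)
    (hW : ∀ y : Fin m → MonoidAlgebra ℤ G, y ᵥ* Q = 0 ↔ ∃ z : Fin r → MonoidAlgebra ℤ G, z ᵥ* W = y)
    (hA : ∀ y : Fin m → MonoidAlgebra ℤ G, y ᵥ* A = 0 → y ᵥ* Q = 0) (h : RB (W * A)) : RB A := by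
  obtain ⟨μ, i1, Q1, h1, h2, h3⟩ := h
  have hWQ : ∀ z : Fin r → MonoidAlgebra ℤ G, (z ᵥ* W) ᵥ* Q = 0 := fun z => (hW _).2 ⟨z, rfl⟩
  refine ⟨μ ⊕ Fin s, inferInstance, fromRows Q1 (S * A), fun y hy => ?_, fun y => ?_, fun z => ?_⟩
  · rw [Matrix.vecMul_fromRows] at hy
    obtain ⟨a, ha⟩ := h3 (y ∘ Sum.inl)
    set b := y ∘ Sum.inr with hb
    have e1 : (a ᵥ* W + b ᵥ* S) ᵥ* A = 0 := by
      rw [Matrix.add_vecMul, Matrix.vecMul_vecMul, Matrix.vecMul_vecMul, ha]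
      exact hy
    have e2 := hA _ e1
    rw [Matrix.add_vecMul, hWQ, zero_add, Matrix.vecMul_vecMul, hSQ, Matrix.vecMul_one] at e2
    rw [e2, Matrix.zero_vecMul, add_zero] at hy
    have e3 := h1 _ hy
    funext i
    rcases i with i | i
    · exact congrFun e3 i
    · exact congrFun e2 i
  · have e1 : (y - (y ᵥ* Q) ᵥ* S) ᵥ* Q = 0 := by
      rw [Matrix.sub_vecMul, Matrix.vecMul_vecMul _ S Q, hSQ, Matrix.vecMul_one, sub_self]
    obtain ⟨z, hz⟩ := (hW _).1 e1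
    obtain ⟨a, ha⟩ := h2 z
    refine ⟨Sum.elim a (y ᵥ* Q), ?_⟩
    rw [Matrix.vecMul_fromRows, Sum.elim_comp_inl, Sum.elim_comp_inr, ha, ← Matrix.vecMul_vecMul,
      hz, ← Matrix.vecMul_vecMul, ← Matrix.add_vecMul, sub_add_cancel]
  · obtain ⟨a, ha⟩ := h3 (z ∘ Sum.inl)
    refine ⟨a ᵥ* W + (z ∘ Sum.inr) ᵥ* S, ?_⟩
    rw [Matrix.vecMul_fromRows, Matrix.add_vecMul, Matrix.vecMul_vecMul, Matrix.vecMul_vecMul, ha]

theorem adj_selfadj {κ ι ρ : Type} [Fintype κ] [Fintype ι] [Fintype ρ]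
    {A : Matrix κ ι (MonoidAlgebra ℝ G)} {C : Matrix ι κ (MonoidAlgebra ℝ G)}
    {H : Matrix κ κ (MonoidAlgebra ℝ G)} {P : Matrix κ ρ (MonoidAlgebra ℝ G)}
    (he : A * C + adj (A * C) = H + P * adj P) : adj H = H := by
  have e1 : H = A * C + adj (A * C) - P * adj P := by rw [he]; abel
  rw [e1, adj_sub, adj_add, adj_adj, adj_mul P, adj_adj]
  abel

/-- **The row space of a tame matrix has a basis.** -/
theorem RB_of_Tame (htf : ∀ g : G, ∀ k : ℕ, 0 < k → g ^ k = 1 → g = 1) {k m : ℕ}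
    {A : Matrix (Fin m) (Fin k) (MonoidAlgebra ℤ G)} (h : Tame A) : RB A := by
  induction h with
  | zero => exact RB_zero
  | rows A U U' h1 _ ih => exact RB_of_left A U U' h1 ih
  | step A H C P W h1 h2 h3 _ ih =>
    obtain ⟨r, s, W', V, S, Q, g1, g2, g3, g4, g5, g6⟩ := ker_struct htf h1 (adj_selfadj h2)
    refine RB_step A W Q S g2 (fun y => (g6 y).symm.trans (h3 y)) (fun y hy => ?_) ih
    rw [← g6]
    refine ker_sub h1 h2 _ ?_
    rw [realVec_vecMul, hy, realVec_zero]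

theorem FF_tame_row (htf : ∀ g : G, ∀ k : ℕ, 0 < k → g ^ k = 1 → g = 1)
    {n m k : ℕ} {A : Matrix (Fin m) (Fin k) (MonoidAlgebra ℤ G)}
    (hA : Bd G n A) (h : Tame A) : FFle G (n + 1) := by
  have h1 := FFle_of_FR n A hA 0 (FR_of_RB A (RB_of_Tame htf h))
  have h2 : 0 + n + 1 = n + 1 := by ring
  rwa [h2] at h1

theorem FF_tame_col (htf : ∀ g : G, ∀ k : ℕ, 0 < k → g ^ k = 1 → g = 1)
    {n m k : ℕ} {A : Matrix (Fin m) (Fin k) (MonoidAlgebra ℤ G)}
    (hA : Bd G (n + 1) A) (h : Tame (adj A))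
    (hP : Module.Projective (MonoidAlgebra ℤ G)
      ((Fin k → MonoidAlgebra ℤ G) ⧸ LinearMap.range A.vecMulLinear)) : FFle G (n + 2) := by
  obtain ⟨l, B, hB, hAB⟩ := hA
  obtain ⟨Y, hY⟩ := regular_of_projective A _ hP (LinearEquiv.refl _ _)
  have hSFC : SFC A := by
    apply SFC_of_adj
    refine SFC_of_RB (adj A) (RB_of_Tame htf h) (adj Y) ?_
    rw [← adj_mul, ← adj_mul, ← Matrix.mul_assoc, hY]
  have h1 := FFle_of_FR n B hB 1 (FR_proj A B hAB hSFC)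
  have h2 : 1 + n + 1 = n + 2 := by ring
  rwa [h2] at h1

end Pool.Agent.V8H82.HP
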